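import Pool.Agent.N102.FL.LStm

/-!
# FL2/ASC: ascent of log uniformization (project of helper102)

The proof follows `ascent` of `Pool.Agent.W418.LU2.Final`; the coordinates and the system of equations
are now given, and the cut is the hypothesis `S_CUT`.
-/

set_option autoImplicit false
set_option linter.unusedVariables false
set_option linter.unusedSectionVars false

universe u

namespace Pool.Agent.N498.FL

open IsLocalRing Pool.Agent.W418.LU2 Pool.Agent.N102.FL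

section mon

variable {E K : Type u} [Field E] [Field K] [Algebra E K] {Θ : Type} [Fintype Θ] {y : Θ → K}

lemma mon_ne {z : K} (h : Mon E y z) (hy : ∀ θ, y θ ≠ 0) : z ≠ 0 := by
  obtain ⟨a, m, ha, rfl⟩ := h
  exact mul_ne_zero ((map_ne_zero (algebraMap E K)).2 ha) (mo_ne_zero hy m)

lemma mon_mul {z z' : K} (h : Mon E y z) (hy : ∀ θ, y θ ≠ 0)
    (h' : Mon E y z') : Mon E y (z * z') := by
  obtain ⟨a, m, ha, rfl⟩ := h
  obtain ⟨a', m', ha', rfl⟩ := h'
  refine ⟨a * a', m + m', mul_ne_zero ha ha', ?_⟩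
  rw [mo_add hy, map_mul]
  ring

lemma mon_inv {z : K} (h : Mon E y z) : Mon E y z⁻¹ := by
  obtain ⟨a, m, ha, rfl⟩ := h
  exact ⟨a⁻¹, -m, inv_ne_zero ha, by rw [mul_inv, map_inv₀, mo_neg]⟩

lemma mon_one : Mon E y 1 :=
  ⟨1, 0, one_ne_zero, by rw [map_one, mo_zero, one_mul]⟩

lemma mon_alg {e : E} (he : e ≠ 0) : Mon E y (algebraMap E K e) :=
  ⟨e, 0, he, by rw [mo_zero, mul_one]⟩

lemma mon_coord (θ : Θ) : Mon E y (y θ) := by
  classical
  exact ⟨1, Pi.single θ 1, one_ne_zero, by rw [map_one, mo_single, one_mul]⟩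

end mon

/-- **ASC**: the ascent of log uniformization. -/
theorem t_asc (hcut : S_CUT.{u}) : S_ASC.{u} := by
  intro E K _ _ _ V R _ hfr hRV hLU Θ _ y hy hyfr 𝒮 hOk hc0 htr A Gen hGenf hGen hA hAV hbθ D I₀
    hD hI₀
  classical
  obtain ⟨hD0, SD, hSDf, hSDm, hSD⟩ := hD
  obtain ⟨hI0, SI, hSIf, hSIm, hSI⟩ := hI₀
  obtain ⟨d₀, hd₀S, hd₀0, hd₀⟩ := exists_gen V hAV hSDf (by rw [← hSD]; exact hD0)
  obtain ⟨f₀, hf₀S, hf₀0, hf₀⟩ := exists_gen V hAV hSIf (by rw [← hSI]; exact hI0)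
  rw [← hSD] at hd₀
  rw [← hSI] at hf₀
  have hd₀0' : (d₀ : K) ≠ 0 := fun h => hd₀0 (Subtype.ext h)
  have hf₀0' : (f₀ : K) ≠ 0 := fun h => hf₀0 (Subtype.ext h)
  have hd₀m := hSDm d₀ hd₀S hd₀0'
  have hf₀m := hSIm f₀ hf₀S hf₀0'
  have hRA : ∀ a ∈ R, algebraMap E K a ∈ A := by
    intro a ha
    rw [hA]
    exact Subring.subset_closure (Or.inl ⟨a, ha, rfl⟩)
  have hGenA : ∀ z ∈ Gen, z ∈ A := by
    intro z hz
    rw [hA]
    exact Subring.subset_closure (Or.inr hz)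
  -- the monomials
  let Z : Set K := Gen ∪ ((fun a : A => (a : K) / (d₀ : K)) '' {a | a ∈ SD ∧ a ≠ 0}) ∪
    ((fun a : A => (a : K) / (f₀ : K)) '' {a | a ∈ SI ∧ a ≠ 0}) ∪ {(d₀ : K), (f₀ : K)}
  have hZf : Z.Finite := by
    refine ((hGenf.union ?_).union ?_).union (Set.toFinite _)
    · exact (hSDf.subset fun a ha => ha.1).image _
    · exact (hSIf.subset fun a ha => ha.1).image _
  have hZm : ∀ z ∈ Z, Mon E y z := by
    rintro z (((hz | ⟨a, ha, rfl⟩) | ⟨a, ha, rfl⟩) | hz)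
    · exact hGen z hz
    · change Mon E y ((a : K) / (d₀ : K))
      rw [div_eq_mul_inv]
      exact mon_mul (hSDm a ha.1 fun h => ha.2 (Subtype.ext h)) hy (mon_inv hd₀m)
    · change Mon E y ((a : K) / (f₀ : K))
      rw [div_eq_mul_inv]
      exact mon_mul (hSIm a ha.1 fun h => ha.2 (Subtype.ext h)) hy (mon_inv hf₀m)
    · rcases hz with rfl | hz
      · exact hd₀m
      · rw [Set.mem_singleton_iff.1 hz]
        exact hf₀m
  have hZm' : ∀ z ∈ Z, ∃ (a : E) (m : Θ → ℤ), a ≠ 0 ∧ z = algebraMap E K a * mo y m := hZm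
  choose! ez mz hez0 hmz using hZm'
  choose bθ hbR hb0 hbA using hbθ
  let Hc : Set E := Set.range fun q : (k : 𝒮.κ) × 𝒮.ι k => 𝒮.c q.1 q.2
  have hHcf : Hc.Finite := Set.finite_range _
  have hHc0 : ∀ h ∈ Hc, h ≠ 0 := by
    rintro _ ⟨q, rfl⟩
    exact hc0 q.1 q.2
  -- the base
  have hRW : R ≤ (V.comap (algebraMap E K)).toSubring := fun a ha => hRV a ha
  obtain ⟨Wb, fb, n0, x₀, hWbf, hfbR, hfb0, hWb, hx₀, hreg₀, hfbm, hHm⟩ :=
    base (V.comap (algebraMap E K)) R hRW hfr hLU (Hc ∪ ez '' Z ∪ Set.range bθ)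
      ((hHcf.union (hZf.image _)).union (Set.finite_range _)) (by
        rintro h ((hh | ⟨z, hz, rfl⟩) | ⟨θ, rfl⟩)
        · exact hHc0 h hh
        · exact hez0 z hz
        · exact hb0 θ)
  set C := Subring.closure ((R : Set E) ∪ Wb) with hC
  have hCW : C ≤ (V.comap (algebraMap E K)).toSubring := by
    rw [hC, Subring.closure_le]
    rintro z (hz | hz)
    · exact hRW hz
    · exact (hWb z hz).1
  have hRC : R ≤ C := fun a ha => Subring.subset_closure (Or.inl ha)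
  have hCE : ∀ a : E, ∃ b ∈ C, b ≠ 0 ∧ a * b ∈ C := by
    intro a
    obtain ⟨a', ha', b, hb, hb0, rfl⟩ := hfr a
    refine ⟨b, hRC hb, hb0, ?_⟩
    rw [mul_assoc, inv_mul_cancel₀ hb0, mul_one]
    exact hRC ha'
  -- the construction
  obtain ⟨T, κ, _, x, hTf, hTV, hTm, hreg, hPMalg, hPMy, hGV⟩ :=
    hcut E K Θ y hy V C (Fin n0) x₀ hreg₀ hCW hCE 𝒮 hOk
      (fun k i => hHm _ (Or.inl (Or.inl ⟨⟨k, i⟩, rfl⟩))) hyfr htr
      ((fun z => (ez z, mz z)) '' Z) (hZf.image _) (by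
        rintro _ ⟨z, hz, rfl⟩
        exact hHm _ (Or.inl (Or.inr ⟨z, hz, rfl⟩)))
  set B := Subring.closure (C.map (algebraMap E K) ∪ T) with hB
  set P := lo V.toSubring B with hP
  have hBV : B ≤ V.toSubring := by
    rw [hB, Subring.closure_le]
    rintro w (⟨c, hc, rfl⟩ | hw)
    · exact hCW hc
    · exact hTV w hw
  have hBP : B ≤ P := le_lo _ _
  have hCP : ∀ c ∈ C, algebraMap E K c ∈ P := fun c hc =>
    hBP (Subring.subset_closure (Or.inl ⟨c, hc, rfl⟩))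
  have hTP : ∀ t ∈ T, t ∈ P := fun t ht => hBP (Subring.subset_closure (Or.inr ht))
  -- the monomials
  have hZP : ∀ z ∈ Z, z ∈ V → z ∈ P := by
    intro z hz hzV
    have h1 := hGV (ez z, mz z) ⟨z, hz, rfl⟩
    simp only [← hmz z hz] at h1
    exact h1 hzV
  have hZPM : ∀ z ∈ Z, PMon P x z := by
    intro z hz
    rw [hmz z hz]
    exact (hPMalg _ (hHm _ (Or.inl (Or.inr ⟨z, hz, rfl⟩)))).mul hreg.ne (PMon.mo hreg.ne hPMy _)
  have hAP : A ≤ P := by
    rw [hA, Subring.closure_le]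
    rintro z (⟨a, ha, rfl⟩ | hz)
    · exact hCP _ (hRC ha)
    · exact hZP z (Or.inl (Or.inl (Or.inl hz))) (hAV (hGenA z hz))
  have hDP : ∀ a ∈ D, (a : K) / (d₀ : K) ∈ P := by
    intro a ha
    rw [hSD] at ha
    induction ha using Submodule.span_induction with
    | mem a ha =>
      by_cases h0 : a = 0
      · rw [h0]; simp
      · refine hZP _ (Or.inl (Or.inl (Or.inr ⟨a, ⟨ha, h0⟩, rfl⟩))) (hd₀ a ?_)
        rw [hSD]
        exact Ideal.subset_span ha
    | zero => simp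
    | add a b _ _ ha hb =>
      have h1 : ((a + b : A) : K) / (d₀ : K) = (a : K) / (d₀ : K) + (b : K) / (d₀ : K) :=
        add_div _ _ _
      rw [h1]
      exact P.add_mem ha hb
    | smul c a _ ha =>
      have h1 : ((c • a : A) : K) / (d₀ : K) = (c : K) * ((a : K) / (d₀ : K)) :=
        mul_div_assoc _ _ _
      rw [h1]
      exact P.mul_mem (hAP c.2) ha
  have hIP : ∀ a ∈ I₀, (a : K) / (f₀ : K) ∈ P := by
    intro a ha
    rw [hSI] at ha
    induction ha using Submodule.span_induction with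
    | mem a ha =>
      by_cases h0 : a = 0
      · rw [h0]; simp
      · refine hZP _ (Or.inl (Or.inr ⟨a, ⟨ha, h0⟩, rfl⟩)) (hf₀ a ?_)
        rw [hSI]
        exact Ideal.subset_span ha
    | zero => simp
    | add a b _ _ ha hb =>
      have h1 : ((a + b : A) : K) / (f₀ : K) = (a : K) / (f₀ : K) + (b : K) / (f₀ : K) :=
        add_div _ _ _
      rw [h1]
      exact P.add_mem ha hb
    | smul c a _ ha =>
      have h1 : ((c • a : A) : K) / (f₀ : K) = (c : K) * ((a : K) / (f₀ : K)) :=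
        mul_div_assoc _ _ _
      rw [h1]
      exact P.mul_mem (hAP c.2) ha
  -- the fractions
  let Qm : Set K := {α | α ∈ A ∧ Mon E y α ∧ PMon P x α}
  have hQmul : ∀ α ∈ Qm, ∀ β ∈ Qm, α * β ∈ Qm := fun α hα β hβ =>
    ⟨A.mul_mem hα.1 hβ.1, mon_mul hα.2.1 hy hβ.2.1, hα.2.2.mul hreg.ne hβ.2.2⟩
  have hQone : (1 : K) ∈ Qm := ⟨A.one_mem, mon_one, PMon.one⟩
  let Fr : Set K := {z | ∃ α ∈ Qm, ∃ β ∈ Qm, z = α * β⁻¹}
  have hFmul : ∀ z ∈ Fr, ∀ w ∈ Fr, z * w ∈ Fr := by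
    rintro _ ⟨α, hα, β, hβ, rfl⟩ _ ⟨α', hα', β', hβ', rfl⟩
    refine ⟨α * α', hQmul _ hα _ hα', β * β', hQmul _ hβ _ hβ', ?_⟩
    rw [mul_inv]
    ring
  have hFinv : ∀ z ∈ Fr, z⁻¹ ∈ Fr := by
    rintro _ ⟨α, hα, β, hβ, rfl⟩
    refine ⟨β, hβ, α, hα, ?_⟩
    rw [mul_inv, inv_inv, mul_comm]
  have hFone : (1 : K) ∈ Fr := ⟨1, hQone, 1, hQone, by simp⟩
  have hFpow : ∀ z ∈ Fr, ∀ n : ℕ, z ^ n ∈ Fr := by
    intro z hz n
    induction n with
    | zero => rw [pow_zero]; exact hFone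
    | succ n ih => rw [pow_succ]; exact hFmul _ ih _ hz
  have hFzpow : ∀ z ∈ Fr, ∀ n : ℤ, z ^ n ∈ Fr := by
    intro z hz n
    rcases Int.eq_nat_or_neg n with ⟨n', rfl | rfl⟩
    · rw [zpow_natCast]; exact hFpow z hz n'
    · rw [zpow_neg, zpow_natCast]; exact hFinv _ (hFpow z hz n')
  have hFmo : ∀ {κ' : Type} [Fintype κ'] (w : κ' → K), (∀ i, w i ∈ Fr) → ∀ m, mo w m ∈ Fr := by
    intro κ' _ w hw m
    unfold mo
    have h1 : ∀ s : Finset κ', ∏ i ∈ s, w i ^ m i ∈ Fr := by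
      intro s
      induction s using Finset.induction_on with
      | empty => rw [Finset.prod_empty]; exact hFone
      | insert i s hi ih =>
        rw [Finset.prod_insert hi]
        exact hFmul _ (hFzpow _ (hw i) _) _ ih
    exact h1 _
  have hFy : ∀ θ, y θ ∈ Fr := by
    intro θ
    have h1 : Mon E y (algebraMap E K (bθ θ)) := mon_alg (hb0 θ)
    have h2 : Mon E y (y θ) := mon_coord θ
    have h3 : PMon P x (algebraMap E K (bθ θ)) := hPMalg _ (hHm _ (Or.inr ⟨θ, rfl⟩))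
    refine ⟨algebraMap E K (bθ θ) * y θ, ⟨hbA θ, mon_mul h1 hy h2, h3.mul hreg.ne (hPMy θ)⟩,
      algebraMap E K (bθ θ), ⟨hRA _ (hbR θ), h1, h3⟩, ?_⟩
    rw [mul_comm, ← mul_assoc, inv_mul_cancel₀ (mon_ne h1 hy), one_mul]
  have hfbQ : algebraMap E K fb ∈ Qm := ⟨hRA _ hfbR, mon_alg hfb0, hPMalg _ hfbm⟩
  have hfbpow : ∀ k : ℕ, algebraMap E K (fb ^ k) ∈ Qm := by
    intro k
    induction k with
    | zero => rw [pow_zero, map_one]; exact hQone
    | succ k ih => rw [pow_succ, map_mul]; exact hQmul _ ih _ hfbQ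
  have hCfb : ∀ z ∈ C, ∃ k : ℕ, z * fb ^ k ∈ R := by
    intro z hz
    rw [hC] at hz
    induction hz using Subring.closure_induction with
    | mem z hz =>
      rcases hz with hz | hz
      · exact ⟨0, by rw [pow_zero, mul_one]; exact hz⟩
      · exact ⟨1, by rw [pow_one]; exact (hWb z hz).2⟩
    | zero => exact ⟨0, by rw [zero_mul]; exact R.zero_mem⟩
    | one => exact ⟨0, by rw [pow_zero, mul_one]; exact R.one_mem⟩
    | add a b _ _ ha hb =>
      obtain ⟨k, hk⟩ := ha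
      obtain ⟨k', hk'⟩ := hb
      refine ⟨k + k', ?_⟩
      have h1 : (a + b) * fb ^ (k + k') = a * fb ^ k * fb ^ k' + b * fb ^ k' * fb ^ k := by
        rw [pow_add]; ring
      rw [h1]
      exact R.add_mem (R.mul_mem hk (R.pow_mem hfbR _)) (R.mul_mem hk' (R.pow_mem hfbR _))
    | neg a _ ha =>
      obtain ⟨k, hk⟩ := ha
      exact ⟨k, by rw [neg_mul]; exact R.neg_mem hk⟩
    | mul a b _ _ ha hb =>
      obtain ⟨k, hk⟩ := ha
      obtain ⟨k', hk'⟩ := hb
      refine ⟨k + k', ?_⟩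
      have h1 : a * b * fb ^ (k + k') = a * fb ^ k * (b * fb ^ k') := by
        rw [pow_add]; ring
      rw [h1]
      exact R.mul_mem hk hk'
  have hFx : ∀ i, algebraMap E K (x₀ i) ∈ Fr := by
    intro i
    obtain ⟨k, hk⟩ := hCfb _ (hx₀ i)
    have h1 : PMon P x (algebraMap E K (x₀ i)) := hPMalg _ (by
      have h2 := PMon.of_mo (P := lo (V.comap (algebraMap E K)).toSubring C) (x := x₀)
        (Pi.single i 1)
      rwa [mo_single] at h2)
    refine ⟨algebraMap E K (x₀ i * fb ^ k), ⟨hRA _ hk, mon_alg (mul_ne_zero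
      (hreg₀.ne i) (pow_ne_zero _ hfb0)), ?_⟩, algebraMap E K (fb ^ k), hfbpow k, ?_⟩
    · rw [map_mul]
      exact h1.mul hreg.ne (hfbpow k).2.2
    · rw [map_mul, mul_assoc, mul_inv_cancel₀ (mon_ne (hfbpow k).2.1 hy), mul_one]
  have hFT : ∀ t ∈ T, t ∈ Fr := by
    intro t ht
    obtain ⟨γ, m, rfl⟩ := hTm t ht
    refine hFmul _ ?_ _ (hFmo y hFy m)
    have h1 : algebraMap E K (mo x₀ γ) = mo (fun i => algebraMap E K (x₀ i)) γ := by
      unfold mo
      rw [map_prod]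
      exact Finset.prod_congr rfl fun i _ => map_zpow₀ _ _ _
    rw [h1]
    exact hFmo _ hFx γ
  -- the common denominator
  have hden : ∀ S : Finset K, (∀ t ∈ S, t ∈ Fr) → ∃ β ∈ Qm, ∀ t ∈ S, t * β ∈ Qm := by
    intro S
    induction S using Finset.induction_on with
    | empty => exact fun _ => ⟨1, hQone, fun t ht => absurd ht (Finset.notMem_empty _)⟩
    | insert a S ha ih =>
      intro hS
      obtain ⟨β, hβ, h1⟩ := ih fun t ht => hS t (Finset.mem_insert_of_mem ht)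
      obtain ⟨α', hα', β', hβ', h2⟩ := hS a (Finset.mem_insert_self _ _)
      refine ⟨β * β', hQmul _ hβ _ hβ', fun t ht => ?_⟩
      rcases Finset.mem_insert.1 ht with rfl | ht
      · have h3 : t * (β * β') = α' * β := by
          rw [h2]
          have := mon_ne hβ'.2.1 hy
          field_simp
        rw [h3]
        exact hQmul _ hα' _ hβ
      · rw [← mul_assoc]
        exact hQmul _ (h1 t ht) _ hβ'
  obtain ⟨β₁, hβ₁, hTβ⟩ := hden hTf.toFinset fun t ht => hFT t (hTf.mem_toFinset.1 ht)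
  set β := algebraMap E K fb * β₁ with hβdef
  have hβ : β ∈ Qm := hQmul _ hfbQ _ hβ₁
  have hTβ' : ∀ t ∈ T, t * β ∈ Qm := by
    intro t ht
    have h1 : t * β = algebraMap E K fb * (t * β₁) := by rw [hβdef]; ring
    rw [h1]
    exact hQmul _ hfbQ _ (hTβ t (hTf.mem_toFinset.2 ht))
  have hWβ : ∀ w ∈ Wb, algebraMap E K w * β ∈ A := by
    intro w hw
    have h1 : algebraMap E K w * β = algebraMap E K (w * fb) * β₁ := by
      rw [hβdef, map_mul]; ring
    rw [h1]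
    exact A.mul_mem (hRA _ (hWb w hw).2) hβ₁.1
  -- the centre
  let S₁ : Set A := {a | (a : K) = β ∨ (∃ t ∈ T, (a : K) = t * β) ∨
    ∃ w ∈ Wb, (a : K) = algebraMap E K w * β}
  have hS₁f : S₁.Finite := by
    have h1 : ({β} ∪ ((fun t => t * β) '' T) ∪ ((fun w => algebraMap E K w * β) '' Wb) :
        Set K).Finite :=
      ((Set.finite_singleton _).union (hTf.image _)).union (hWbf.image _)
    refine (h1.preimage (Subtype.val_injective.injOn (s := Set.univ) |>.mono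
      (Set.subset_univ _))).subset ?_
    rintro a (h | ⟨t, ht, h⟩ | ⟨w, hw, h⟩)
    · exact Or.inl (Or.inl h)
    · exact Or.inl (Or.inr ⟨t, ht, h.symm⟩)
    · exact Or.inr ⟨w, hw, h.symm⟩
  have hβS : (⟨β, hβ.1⟩ : A) ∈ S₁ := Or.inl rfl
  have hβ0 : β ≠ 0 := mon_ne hβ.2.1 hy
  refine ⟨Ideal.span S₁, ⟨?_, S₁, hS₁f, ?_, rfl⟩, ?_⟩
  · intro h
    rw [Ideal.span_eq_bot] at h
    exact hβ0 (congrArg Subtype.val (h _ hβS))
  · rintro a (h | ⟨t, ht, h⟩ | ⟨w, hw, h⟩) h0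
    · rw [h]; exact hβ.2.1
    · rw [h]; exact (hTβ' t ht).2.1
    · rw [h] at h0 ⊢
      exact mon_mul (mon_alg fun h1 => left_ne_zero_of_mul h0 (by rw [h1, map_zero])) hy hβ.2.1
  have hf₀I : f₀ ∈ I₀ := by rw [hSI]; exact Ideal.subset_span hf₀S
  have hd₀D : d₀ ∈ D := by rw [hSD]; exact Ideal.subset_span hd₀S
  have hI₁P : ∀ a ∈ Ideal.span S₁, (a : K) / β ∈ P := by
    intro a ha
    induction ha using Submodule.span_induction with
    | mem a ha =>
      rcases ha with h | ⟨t, ht, h⟩ | ⟨w, hw, h⟩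
      · rw [h, div_self hβ0]; exact P.one_mem
      · rw [h, mul_div_assoc, div_self hβ0, mul_one]; exact hTP t ht
      · rw [h, mul_div_assoc, div_self hβ0, mul_one]
        exact hCP _ (Subring.subset_closure (Or.inr hw))
    | zero => simp
    | add a b _ _ ha hb =>
      have h1 : ((a + b : A) : K) / β = (a : K) / β + (b : K) / β := add_div _ _ _
      rw [h1]
      exact P.add_mem ha hb
    | smul c a _ ha =>
      have h1 : ((c • a : A) : K) / β = (c : K) * ((a : K) / β) := mul_div_assoc _ _ _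
      rw [h1]
      exact P.mul_mem (hAP c.2) ha
  have hIIP : ∀ a ∈ I₀ * Ideal.span S₁, (a : K) / ((f₀ : K) * β) ∈ P := by
    intro a ha
    refine Submodule.mul_induction_on ha ?_ ?_
    · intro b hb c hc
      have h3 : ((b * c : A) : K) / ((f₀ : K) * β) = (b : K) / (f₀ : K) * ((c : K) / β) := by
        change (b : K) * (c : K) / ((f₀ : K) * β) = _
        field_simp
      change ((b * c : A) : K) / ((f₀ : K) * β) ∈ _
      rw [h3]
      exact P.mul_mem (hIP b hb) (hI₁P c hc)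
    · intro b c hb hc
      have h3 : ((b + c : A) : K) / ((f₀ : K) * β) = (b : K) / ((f₀ : K) * β) +
          (c : K) / ((f₀ : K) * β) := add_div _ _ _
      rw [h3]
      exact P.add_mem hb hc
  have hPV : P ≤ V.toSubring := lo_le hBV
  let ff : A := f₀ * ⟨β, hβ.1⟩
  have hffc : (ff : K) = (f₀ : K) * β := rfl
  have hff : ff ∈ I₀ * Ideal.span S₁ := Ideal.mul_mem_mul hf₀I (Ideal.subset_span hβS)
  have hff0 : ff ≠ 0 := fun h => mul_ne_zero hf₀0' hβ0 (congrArg Subtype.val h)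
  have hchP : chart A (I₀ * Ideal.span S₁) ff ≤ P := by
    unfold chart
    rw [Subring.closure_le]
    rintro z (hz | ⟨a, ha, rfl⟩)
    · exact hAP hz
    · rw [hffc]
      exact hIIP a ha
  have hmem : ∀ z : K, (h : z * β ∈ A) → (⟨z * β, h⟩ : A) ∈ S₁ →
      z ∈ chart A (I₀ * Ideal.span S₁) ff := by
    intro z h hz
    refine Subring.subset_closure (Or.inr ⟨f₀ * ⟨z * β, h⟩, Ideal.mul_mem_mul hf₀I
      (Ideal.subset_span hz), ?_⟩)
    rw [hffc]
    change z = (f₀ : K) * (z * β) / ((f₀ : K) * β)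
    field_simp
  have hBch : B ≤ chart A (I₀ * Ideal.span S₁) ff := by
    rw [hB, Subring.closure_le]
    rintro z (⟨c, hc, rfl⟩ | hz)
    · have h1 : C ≤ (chart A (I₀ * Ideal.span S₁) ff).comap (algebraMap E K) := by
        rw [hC, Subring.closure_le]
        rintro c (hc | hc)
        · exact Subring.subset_closure (Or.inl (hRA c hc))
        · exact hmem _ (hWβ c hc) (Or.inr (Or.inr ⟨c, hc, rfl⟩))
      exact h1 hc
    · exact hmem z (hTβ' z hz).1 (Or.inr (Or.inl ⟨z, hz, rfl⟩))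
  refine logDesing_of hff hff0 (fun a ha => ?_) hd₀D hd₀0 (P := P) ?_ hreg hDP ?_
  · rw [hffc]
    exact hPV (hIIP a ha)
  · exact lo_eq hBV hBch hchP
  · rw [hffc]
    exact (hZPM _ (Or.inr (Or.inl rfl))).mul hreg.ne
      ((hZPM _ (Or.inr (Or.inr rfl))).mul hreg.ne hβ.2.2)

end Pool.Agent.N498.FL
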